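import Pool.Agent.Helper23.Riesz.TransferDef
import Pool.Agent.Helper92.Riesz.Ker2
import Pool.Agent.Helper10.Riesz.KerH

/-!
# Riesz energy on spheres, module FINAL1a: a priori bounds
-/

set_option autoImplicit false
open MeasureTheory Set Filter Topology
open scoped ENNReal NNReal

namespace Helper23.Riesz

/-! ### mixtures of exponentials -/

/-- the mixture of exponentials -/
noncomputable def mixh (ρ : Measure ℝ) (r : ℝ) : ℝ := ∫ b, Real.exp (-b * r) ∂ρ

lemma measurable_mixh (ρ : Measure ℝ) [SFinite ρ] : Measurable (mixh ρ) := by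
  have h : Measurable (fun p : ℝ × ℝ => Real.exp (-p.2 * p.1)) := by fun_prop
  exact (h.stronglyMeasurable.integral_prod_right' (ν := ρ)).measurable

lemma mixh_nonneg (ρ : Measure ℝ) (r : ℝ) : 0 ≤ mixh ρ r :=
  integral_nonneg fun _ => (Real.exp_pos _).le

lemma mixh_le (ρ : Measure ℝ) [IsProbabilityMeasure ρ] {a : ℝ} (hρ : ρ (Iio a) = 0) {r : ℝ}
    (hr : 0 ≤ r) : mixh ρ r ≤ Real.exp (-a * r) := by
  have h1 : ∀ᵐ b ∂ρ, ‖Real.exp (-b * r)‖ ≤ Real.exp (-a * r) := by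
    have h2 : ∀ᵐ b ∂ρ, b ∉ Iio a := measure_eq_zero_iff_ae_notMem.1 hρ
    filter_upwards [h2] with b hb
    rw [Real.norm_of_nonneg (Real.exp_pos _).le]
    apply Real.exp_le_exp.2
    have : a ≤ b := not_lt.1 hb
    nlinarith
  have h3 := norm_integral_le_of_norm_le_const h1
  rw [probReal_univ, mul_one] at h3
  exact (le_abs_self _).trans h3

lemma mixh_le_one (ρ : Measure ℝ) [IsProbabilityMeasure ρ] {a : ℝ} (ha : 0 ≤ a)
    (hρ : ρ (Iio a) = 0) {r : ℝ} (hr : 0 ≤ r) : mixh ρ r ≤ 1 := by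
  refine (mixh_le ρ hρ hr).trans ?_
  apply Real.exp_le_one_iff.2
  nlinarith

section
variable {s : ℝ} {d : ℕ}

lemma integrable_K_mul (hd : 1 ≤ d) (hs : 0 < s) (hsd : s < d) {f : ℝ → ℝ} (hf : Measurable f)
    (hf0 : ∀ r, 0 ≤ r → 0 ≤ f r) (hf1 : ∀ r, 0 ≤ r → f r ≤ 1) (x : S d) :
    Integrable (fun y => K s x y * f (dist x y)) (sig d) := by
  have hm : Measurable (fun y : S d => dist x y) := measurable_const.dist measurable_id
  refine (integrable_K hd hs hsd x).mono' ?_ (Eventually.of_forall fun y => ?_)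
  · have h1 : Measurable (fun y : S d => K s x y) := by
      unfold K
      exact hm.pow_const _
    exact (h1.mul (hf.comp hm)).aestronglyMeasurable
  · rw [Real.norm_of_nonneg (mul_nonneg (K_nonneg _ _ _) (hf0 _ dist_nonneg))]
    calc K s x y * f (dist x y) ≤ K s x y * 1 :=
          mul_le_mul_of_nonneg_left (hf1 _ dist_nonneg) (K_nonneg _ _ _)
      _ = K s x y := mul_one _

lemma zonal_K (f : ℝ → ℝ) (x : S d) :
    ∫ y, K s x y * f (dist x y) ∂(sig d) = avg2 (fun x y : S d => K s x y * f (dist x y)) :=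
  zonal (fun r => r ^ (-s) * f r) x

/-- splitting of the continuous energy -/
lemma V_split (hd : 1 ≤ d) (hs : 0 < s) (hsd : s < d) {f : ℝ → ℝ} (hf : Measurable f)
    (hf0 : ∀ r, 0 ≤ r → 0 ≤ f r) (hf1 : ∀ r, 0 ≤ r → f r ≤ 1) :
    V s d = avg2 (fun x y : S d => K s x y * f (dist x y)) +
      avg2 (fun x y : S d => K s x y * (1 - f (dist x y))) := by
  have x : S d := ⟨EuclideanSpace.single 0 (1:ℝ), by simp⟩
  have hi2 : Integrable (fun y : S d => K s x y * (1 - f (dist x y))) (sig d) :=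
    integrable_K_mul hd hs hsd (f := fun r => 1 - f r) (measurable_const.sub hf)
        (fun r hr => sub_nonneg.2 (hf1 r hr)) (fun r hr => by linarith [hf0 r hr]) x
  rw [← integral_K (s := s) x, ← zonal_K f x, ← zonal_K (fun r => 1 - f r) x,
    ← integral_add (integrable_K_mul hd hs hsd hf hf0 hf1 x) hi2]
  refine integral_congr_ae (Eventually.of_forall fun y => ?_)
  simp only
  ring

/-- the mean of `K h` -/
lemma avg2_K_mixh_le (hd : 1 ≤ d) (hs : 0 < s) (hsd : s < d) {C : ℝ}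
    (hC : ∀ a : ℝ, 0 < a → ∀ (x : S d) (δ : ℝ), 0 ≤ δ →
      ∫ y in {y | δ ≤ dist x y}, K s x y * Real.exp (-a * dist x y) ∂(sig d) ≤
        C * a ^ (s - d) * Real.exp (-a * δ / 2)) (ρ : Measure ℝ) [IsProbabilityMeasure ρ] {a : ℝ}
    (ha : 0 < a) (hρ : ρ (Iio a) = 0) :
    avg2 (fun x y : S d => K s x y * mixh ρ (dist x y)) ≤ C * a ^ (s - d) := by
  have x : S d := ⟨EuclideanSpace.single 0 (1:ℝ), by simp⟩
  rw [← zonal_K (mixh ρ) x]
  have h1 := hC a ha x 0 le_rfl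
  have h2 : {y : S d | 0 ≤ dist x y} = univ := eq_univ_of_forall fun y => dist_nonneg
  rw [h2, Measure.restrict_univ, mul_zero, zero_div, Real.exp_zero, mul_one] at h1
  refine le_trans (integral_mono ?_ ?_ fun y => ?_) h1
  · exact integrable_K_mul hd hs hsd (measurable_mixh ρ) (fun r _ => mixh_nonneg ρ r)
      (fun r hr => mixh_le_one ρ ha.le hρ hr) x
  · exact integrable_K_mul hd hs hsd (f := fun r => Real.exp (-a * r)) (by fun_prop)
      (fun r _ => (Real.exp_pos _).le)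
      (fun r hr => Real.exp_le_one_iff.2 (by nlinarith)) x
  · exact mul_le_mul_of_nonneg_left (mixh_le ρ hρ dist_nonneg) (K_nonneg _ _ _)

/-- a priori lower bound -/
theorem energy_lower (hd : 1 ≤ d) (hs : 0 < s) (hsd : s < d) : ∃ C₁ : ℝ, 0 ≤ C₁ ∧
    ∀ Y : Finset (S d), -C₁ * (Y.card : ℝ) ^ (1 + s / d) ≤ en s Y - (Y.card : ℝ) ^ 2 * V s d := by
  have hd' : (0:ℝ) < d := by exact_mod_cast hd
  obtain ⟨θ, hθ, hθs, C, hC, hh⟩ := exists_h hs
  obtain ⟨C', hC', hres⟩ := residual hd hs hsd θ C hθ hθs hC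
  obtain ⟨C'', hC'', havg⟩ := avg_K_exp hd hs hsd
  refine ⟨2 * C' + C'' * 2 ^ (d - s), by positivity, fun Y => ?_⟩
  rcases Nat.eq_zero_or_pos Y.card with h0 | hpos
  · have hY : Y = ∅ := Finset.card_eq_zero.1 h0
    have hsd0 : (1 + s / d : ℝ) ≠ 0 := by positivity
    rw [hY]
    simp [en, Real.zero_rpow hsd0]
  set N : ℝ := (Y.card : ℝ) with hN
  have hN1 : (1 : ℝ) ≤ N := by rw [hN]; exact_mod_cast hpos
  have hN0 : 0 < N := by linarith
  set U : ℝ := N ^ (1 / (d:ℝ)) with hU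
  have hU0 : 0 < U := Real.rpow_pos_of_pos hN0 _
  set a : ℝ := U / 2 with ha
  have ha0 : 0 < a := by positivity
  have haU : 2 * a ≤ U := by rw [ha]; linarith
  obtain ⟨ρ, w, hρp, hρ, hwm, hw0, hrep, hU1, hU2⟩ := hh a ha0
  have hres' := hres a ha0 (mixh ρ) w hwm hw0 hrep hU1 hU2 U haU Y
  have hV := V_split hd hs hsd (measurable_mixh ρ) (fun r _ => mixh_nonneg ρ r)
    (fun r hr => mixh_le_one ρ ha0.le hρ hr)
  have hav := avg2_K_mixh_le hd hs hsd havg ρ ha0 hρ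
  have hUs : U ^ s = N ^ (s / d) := by
    rw [hU, ← Real.rpow_mul hN0.le]; congr 1; ring
  have hUsd : U ^ (s - d) = N ^ (s / d - 1) := by
    rw [hU, ← Real.rpow_mul hN0.le]; congr 1; field_simp
  have haθ : a ^ θ ≤ U ^ θ := Real.rpow_le_rpow ha0.le (by linarith) hθ.le
  have e1 : U ^ θ * U ^ (s - θ) = U ^ s := by
    rw [← Real.rpow_add hU0]; congr 1; ring
  have e2 : U ^ θ * U ^ (s - θ - d) = U ^ (s - d) := by
    rw [← Real.rpow_add hU0]; congr 1; ring
  have p1 : N * N ^ (s / d) = N ^ (1 + s / d) := by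
    rw [Real.rpow_add hN0, Real.rpow_one]
  have p2 : N ^ 2 * N ^ (s / d - 1) = N ^ (1 + s / d) := by
    rw [← Real.rpow_natCast, ← Real.rpow_add hN0]; congr 1; push_cast; ring
  have b1 : N * a ^ θ * U ^ (s - θ) ≤ N ^ (1 + s / d) := by
    calc N * a ^ θ * U ^ (s - θ) ≤ N * U ^ θ * U ^ (s - θ) := by
          have := Real.rpow_nonneg hU0.le (s - θ)
          gcongr
      _ = N * (U ^ θ * U ^ (s - θ)) := by ring
      _ = N ^ (1 + s / d) := by rw [e1, hUs, p1]
  have b2 : N ^ 2 * a ^ θ * U ^ (s - θ - d) ≤ N ^ (1 + s / d) := by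
    calc N ^ 2 * a ^ θ * U ^ (s - θ - d) ≤ N ^ 2 * U ^ θ * U ^ (s - θ - d) := by
          have := Real.rpow_nonneg hU0.le (s - θ - d)
          gcongr
      _ = N ^ 2 * (U ^ θ * U ^ (s - θ - d)) := by ring
      _ = N ^ (1 + s / d) := by rw [e2, hUsd, p2]
  have b3 : N ^ 2 * (C'' * a ^ (s - d)) = C'' * 2 ^ (d - s) * N ^ (1 + s / d) := by
    have : a ^ (s - d) = 2 ^ (d - s) * U ^ (s - d) := by
      rw [ha, Real.div_rpow hU0.le (by norm_num), div_eq_mul_inv, ← Real.rpow_neg (by norm_num),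
        neg_sub, mul_comm]
    rw [this, hUsd, ← p2]; ring
  -- split the energy
  have hen : en s Y = ∑ x ∈ Y, ∑ y ∈ Y, K s x y * mixh ρ (dist x y) +
      ∑ x ∈ Y, ∑ y ∈ Y, K s x y * (1 - mixh ρ (dist x y)) := by
    rw [en_eq hs.ne', ← Finset.sum_add_distrib]
    refine Finset.sum_congr rfl fun x _ => ?_
    rw [← Finset.sum_add_distrib]
    refine Finset.sum_congr rfl fun y _ => ?_
    ring
  have hpos1 : 0 ≤ ∑ x ∈ Y, ∑ y ∈ Y, K s x y * mixh ρ (dist x y) :=
    Finset.sum_nonneg fun x _ => Finset.sum_nonneg fun y _ =>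
      mul_nonneg (K_nonneg _ _ _) (mixh_nonneg _ _)
  have hav2 : N ^ 2 * avg2 (fun x y : S d => K s x y * mixh ρ (dist x y)) ≤
      C'' * 2 ^ (d - s) * N ^ (1 + s / d) := by
    rw [← b3]; gcongr
  have hres2 : C' * (N * a ^ θ * U ^ (s - θ) + N ^ 2 * a ^ θ * U ^ (s - θ - d)) ≤
      2 * C' * N ^ (1 + s / d) := by
    calc C' * (N * a ^ θ * U ^ (s - θ) + N ^ 2 * a ^ θ * U ^ (s - θ - d)) ≤
          C' * (N ^ (1 + s / d) + N ^ (1 + s / d)) := by gcongr
      _ = _ := by ring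
  rw [hen, hV]
  nlinarith

/-- a priori upper bound -/
theorem energy_upper (hd : 1 ≤ d) (hs : 0 < s) (hsd : s < d) (N : ℕ) :
    Emin s d N ≤ (N : ℝ) ^ 2 * V s d := by
  have := isProbabilityMeasure_sig d
  obtain ⟨Z, hZ, hZe⟩ := exists_add_many (v := V s d) hs (integrable_K hd hs hsd) integral_K
    (sig_singleton hd) (∅ : Finset (S d)) N
  rw [Finset.card_empty, zero_add] at hZ
  have h1 := Emin_le s Z
  rw [hZ] at h1
  have hV := V_pos hd hs hsd
  have h2 : en s (∅ : Finset (S d)) = 0 := by simp [en]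
  rw [h2] at hZe
  simp only [Finset.card_empty, Nat.cast_zero] at hZe
  have hN : (0:ℝ) ≤ N := Nat.cast_nonneg N
  nlinarith

end

end Helper23.Riesz
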