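import Pool.Agent.Helper52.Riesz.GeoA

/-!
# Riesz energy on spheres: module GEO (packing the sphere by small similar copies of a box)
-/

set_option autoImplicit false
open MeasureTheory Set Filter Topology
open scoped ENNReal NNReal Pointwise

namespace Helper23.Riesz.Geo

variable {d : ℕ}

lemma sq_norm_le {z : R d} {M : ℝ} (hz : ∀ i, |z i| ≤ M) : ‖z‖ ^ 2 ≤ d * M ^ 2 := by
  rw [EuclideanSpace.norm_sq_eq]
  calc ∑ i, ‖z i‖ ^ 2 ≤ ∑ _i : Fin d, M ^ 2 := by
        refine Finset.sum_le_sum fun i _ => ?_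
        rw [Real.norm_eq_abs]
        exact pow_le_pow_left₀ (abs_nonneg _) (hz i) 2
    _ = d * M ^ 2 := by simp

lemma lam_ge_of_norm {z : R d} {x : ℝ} (hz : ‖z‖ ^ 2 ≤ x) : 2 / (1 + x) ≤ lam z := by
  unfold lam
  have h0 : 0 ≤ ‖z‖ ^ 2 := by positivity
  exact div_le_div_of_nonneg_left (by norm_num) (by positivity) (by linarith)

lemma zero_apply' (i : Fin d) : (0 : R d) i = 0 := rfl

lemma lam_ge_of_cube {b η : ℝ} (hη0 : 0 ≤ η) (hη : d * b ^ 2 ≤ η) {z : R d}
    (hz : z ∈ cube 0 b) : 2 * (1 - η) ≤ lam z := by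
  have h1 : ‖z‖ ^ 2 ≤ d * b ^ 2 := by
    apply sq_norm_le
    intro i
    have h := hz i
    rw [zero_apply', zero_add] at h
    rw [abs_of_nonneg h.1]
    exact h.2.le
  refine le_trans ?_ (lam_ge_of_norm (h1.trans hη))
  rw [le_div_iff₀ (by positivity)]
  nlinarith [sq_nonneg η]

lemma real_sig_cube_le (hd : 1 ≤ d) {c : R d} {s L : ℝ} (hs : 0 ≤ s) (hL0 : 0 ≤ L)
    (hL : ∀ y ∈ cube c s, lam y ≤ L) :
    (sig d).real (Th '' cube c s) ≤ 1 / omega d * (L * s) ^ d := by
  have h := sig_Th_le hd (measurableSet_cube c s) hL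
  have hω := omega_pos hd
  rw [volume_cube, ← ENNReal.ofReal_pow hs, ← ENNReal.ofReal_mul (by positivity),
    ← ENNReal.ofReal_mul (by positivity), ← mul_pow] at h
  exact ENNReal.toReal_le_of_le_ofReal (by positivity) h

lemma le_real_sig_cube (hd : 1 ≤ d) {c : R d} {s L : ℝ} (hs : 0 ≤ s) (hL0 : 0 ≤ L)
    (hL : ∀ y ∈ cube c s, L ≤ lam y) :
    1 / omega d * (L * s) ^ d ≤ (sig d).real (Th '' cube c s) := by
  have h := le_sig_Th hd (measurableSet_cube c s) hL0 hL
  have hω := omega_pos hd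
  have := isProbabilityMeasure_sig d
  rw [volume_cube, ← ENNReal.ofReal_pow hs, ← ENNReal.ofReal_mul (by positivity),
    ← ENNReal.ofReal_mul (by positivity), ← mul_pow] at h
  exact (ENNReal.ofReal_le_iff_le_toReal (measure_ne_top _ _)).1 h

lemma last_Th (w : R d) : (Th w : E d) (Fin.last d) = 1 - lam w := by
  simp [Th, ThE]

lemma last_north : (north d : E d) (Fin.last d) = 1 := by
  simp [north]

lemma abs_last_le (x y : S d) : |(x : E d) (Fin.last d) - (y : E d) (Fin.last d)| ≤ dist x y := by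
  have h := PiLp.norm_apply_le ((x : E d) - (y : E d)) (Fin.last d)
  rw [Subtype.dist_eq, dist_eq_norm]
  exact h

lemma mem_inner {b η r : ℝ} (hη0 : 0 ≤ η) (hη : d * b ^ 2 ≤ η) (hη1 : η ≤ 1 / 4) (hr0 : 0 ≤ r)
    (hr : r ≤ 1 / 2) (c : R d) (hc : ∀ i, c i = r) {z : R d} (hz : z ∈ cube c (b - 2 * r)) :
    Th z ∈ {x : S d | x ∈ Th '' cube 0 b ∧ Metric.ball x r ⊆ Th '' cube 0 b} := by
  have hz0 : z ∈ cube 0 b := by
    intro i
    have h := hz i
    rw [hc] at h
    rw [zero_apply']
    constructor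
    · linarith [h.1]
    · linarith [h.2]
  refine ⟨⟨z, hz0, rfl⟩, fun y hy => ?_⟩
  rw [Metric.mem_ball] at hy
  have hlz := lam_ge_of_cube hη0 hη hz0
  have h1 := abs_last_le y (Th z)
  by_cases hyn : y = north d
  · exfalso
    rw [hyn, last_north, last_Th] at h1
    have h2 := le_abs_self (1 - (1 - lam z))
    rw [hyn] at hy
    linarith
  · have h2 : y ∈ Set.range (Th : R d → S d) := by
      rw [range_Th]; exact hyn
    obtain ⟨w, rfl⟩ := h2
    refine ⟨w, ?_, rfl⟩
    rw [last_Th, last_Th] at h1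
    have h3 := le_abs_self ((1 - lam w) - (1 - lam z))
    have h4 : 1 ≤ lam w := by linarith
    have h5 : 1 ≤ lam z := by linarith
    have h6 := dist_Th_sq w z
    have h7 : (dist w z) ^ 2 < r ^ 2 := by
      have h8 : (dist (Th w) (Th z)) ^ 2 < r ^ 2 := pow_lt_pow_left₀ hy dist_nonneg (by norm_num)
      have h9 : 1 * (dist w z) ^ 2 ≤ lam w * lam z * (dist w z) ^ 2 := by
        apply mul_le_mul_of_nonneg_right _ (sq_nonneg _)
        nlinarith
      linarith
    have h8 : dist w z < r := lt_of_pow_lt_pow_left₀ 2 hr0 h7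
    intro i
    have h9 : |w i - z i| ≤ dist w z := by
      rw [dist_eq_norm]
      exact PiLp.norm_apply_le (w - z) i
    have h10 := abs_lt.1 (lt_of_le_of_lt h9 h8)
    have h11 := hz i
    rw [hc] at h11
    rw [zero_apply']
    constructor
    · linarith [h10.1, h11.1]
    · linarith [h10.2, h11.2]

/-- the inner part -/
theorem inner_part (hd : 1 ≤ d) {b η ε : ℝ} (hb : 0 < b) (hb1 : b ≤ 1) (hη0 : 0 ≤ η)
    (hη : d * b ^ 2 ≤ η) (hη1 : η ≤ 1 / 4) (hε : d * η ≤ ε) (r : ℝ) (hr0 : 0 ≤ r) :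
    (1 - ε - (2 * d) * r / b) * (sig d).real (Th '' cube 0 b) ≤
        (sig d).real {x : S d | x ∈ Th '' cube 0 b ∧ Metric.ball x r ⊆ Th '' cube 0 b} := by
  have := isProbabilityMeasure_sig d
  have hd1 : (1:ℝ) ≤ d := by exact_mod_cast hd
  have hω := omega_pos hd
  rcases le_or_gt (1 - ε - (2 * d) * r / b) 0 with h | h
  · calc (1 - ε - (2 * d) * r / b) * (sig d).real (Th '' cube 0 b) ≤ 0 :=
        mul_nonpos_of_nonpos_of_nonneg h measureReal_nonneg
      _ ≤ _ := measureReal_nonneg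
  · have hε0 : 0 ≤ ε := le_trans (by positivity) hε
    have h1 : 2 * d * r / b < 1 := by linarith
    rw [div_lt_one hb] at h1
    have h2 : 2 * r ≤ 2 * d * r := by nlinarith
    have h3 : 2 * r < b := by linarith
    have hr : r ≤ 1 / 2 := by linarith
    set c : R d := WithLp.toLp 2 (fun _ => r) with hcdef
    have hc : ∀ i, c i = r := fun i => rfl
    have h4 : Th '' cube c (b - 2 * r) ⊆
        {x : S d | x ∈ Th '' cube 0 b ∧ Metric.ball x r ⊆ Th '' cube 0 b} := by
      rintro _ ⟨z, hz, rfl⟩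
      exact mem_inner hη0 hη hη1 hr0 hr c hc hz
    have h5 : 1 / omega d * ((2 * (1 - η)) * (b - 2 * r)) ^ d ≤
        (sig d).real (Th '' cube c (b - 2 * r)) := by
      apply le_real_sig_cube hd (by linarith) (by linarith)
      intro y hy
      apply lam_ge_of_cube hη0 hη
      intro i
      have h := hy i
      rw [hc] at h
      rw [zero_apply']
      constructor
      · linarith [h.1]
      · linarith [h.2]
    have h6 : (sig d).real (Th '' cube 0 b) ≤ 1 / omega d * (2 * b) ^ d :=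
      real_sig_cube_le hd hb.le (by norm_num) (fun y _ => lam_le_two y)
    have h7 : (1 - ε - (2 * d) * r / b) * (2 * b) ^ d ≤ ((2 * (1 - η)) * (b - 2 * r)) ^ d := by
      have e1 : ((2 * (1 - η)) * (b - 2 * r)) ^ d =
          (1 - η) ^ d * (1 - 2 * r / b) ^ d * (2 * b) ^ d := by
        rw [← mul_pow, ← mul_pow]
        congr 1
        field_simp
      rw [e1]
      apply mul_le_mul_of_nonneg_right _ (by positivity)
      have h8 : 1 + (d:ℝ) * (-η) ≤ (1 + (-η)) ^ d := one_add_mul_le_pow (by linarith) d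
      have h9 : 1 + (d:ℝ) * (-(2 * r / b)) ≤ (1 + (-(2 * r / b))) ^ d := by
        apply one_add_mul_le_pow
        have : 2 * r / b < 1 := by rw [div_lt_one hb]; exact h3
        linarith
      have h10 : 0 ≤ 1 + (d:ℝ) * (-(2 * r / b)) := by
        have : (d:ℝ) * (2 * r / b) = 2 * d * r / b := by ring
        have h11 : 2 * d * r / b < 1 := by rw [div_lt_one hb]; exact h1
        linarith
      have h11 : 0 ≤ 1 + (d:ℝ) * (-η) := by
        have : 0 ≤ 2 * d * r / b := by positivity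
        linarith
      calc 1 - ε - (2 * d) * r / b ≤ (1 + (d:ℝ) * (-η)) * (1 + (d:ℝ) * (-(2 * r / b))) := by
            have e2 : (1 + (d:ℝ) * (-η)) * (1 + (d:ℝ) * (-(2 * r / b))) =
                1 - d * η - 2 * d * r / b + (d * η) * (d * (2 * r / b)) := by ring
            rw [e2]
            have : 0 ≤ (d * η) * (d * (2 * r / b)) := by positivity
            linarith
        _ ≤ (1 - η) ^ d * (1 - 2 * r / b) ^ d := by
            have e3 : (1:ℝ) + (-η) = 1 - η := by ring
            have e4 : (1:ℝ) + (-(2 * r / b)) = 1 - 2 * r / b := by ring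
            rw [e3] at h8
            rw [e4] at h9
            exact mul_le_mul h8 h9 h10 (le_trans h11 h8)
    calc (1 - ε - (2 * d) * r / b) * (sig d).real (Th '' cube 0 b)
        ≤ (1 - ε - (2 * d) * r / b) * (1 / omega d * (2 * b) ^ d) :=
          mul_le_mul_of_nonneg_left h6 h.le
      _ = 1 / omega d * ((1 - ε - (2 * d) * r / b) * (2 * b) ^ d) := by ring
      _ ≤ 1 / omega d * ((2 * (1 - η)) * (b - 2 * r)) ^ d := by gcongr
      _ ≤ _ := h5
      _ ≤ _ := measureReal_mono h4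


/-- the point with all coordinates equal -/
def diag (d : ℕ) (x : ℝ) : R d := WithLp.toLp 2 (fun _ => x)

lemma diag_apply (x : ℝ) (i : Fin d) : diag d x i = x := rfl

lemma exists_box (hd : 1 ≤ d) {η : ℝ} (hη : 0 < η) : ∃ M : ℕ, 1 ≤ M ∧
    (1 - η) * omega d ≤ ∫ y in cube (diag d (-(M:ℝ))) (2 * M), lam y ^ d := by
  have hω := omega_pos hd
  have hmono : Monotone (fun M : ℕ => cube (diag d (-(M:ℝ))) (2 * M)) := by
    intro M M' hM y hy i
    have h := hy i
    rw [diag_apply] at h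
    rw [diag_apply]
    have h2 : (M:ℝ) ≤ M' := by exact_mod_cast hM
    constructor
    · linarith [h.1]
    · linarith [h.2]
  have hU : (⋃ M : ℕ, cube (diag d (-(M:ℝ))) (2 * M)) = Set.univ := by
    refine Set.eq_univ_of_forall fun y => ?_
    rw [Set.mem_iUnion]
    obtain ⟨M, hM⟩ := exists_nat_gt ‖y‖
    refine ⟨M, fun i => ?_⟩
    have h1 : |y i| ≤ ‖y‖ := PiLp.norm_apply_le y i
    have h2 := abs_lt.1 (lt_of_le_of_lt h1 hM)
    rw [diag_apply]
    constructor
    · exact h2.1.le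
    · linarith [h2.2]
  have ht := tendsto_setIntegral_of_monotone (μ := (volume : Measure (R d)))
    (f := fun y => lam y ^ d) (fun M : ℕ => measurableSet_cube (diag d (-(M:ℝ))) (2 * M)) hmono
    ((integrable_lam_pow hd).integrableOn)
  rw [hU, setIntegral_univ] at ht
  have h1 : (1 - η) * omega d < ∫ y : R d, lam y ^ d := by
    change _ < omega d
    nlinarith
  have h2 := (ht.eventually (lt_mem_nhds h1)).and (eventually_ge_atTop 1)
  obtain ⟨M, hM1, hM2⟩ := h2.exists
  exact ⟨M, hM2, hM1.le⟩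

lemma abs_le_of_mem_box {M : ℝ} {y : R d} (hy : y ∈ cube (diag d (-M)) (2 * M)) (i : Fin d) :
    |y i| ≤ M := by
  have h := hy i
  rw [diag_apply] at h
  rw [abs_le]
  constructor
  · exact h.1
  · linarith [h.2]

lemma osc {c : R d} {κ η l : ℝ} (hκ : 0 ≤ κ) (hl : 0 < l) (hη : 2 * d * κ ≤ η * l)
    (hc : ∀ w ∈ cube c κ, l ≤ lam w) {y w : R d} (hy : y ∈ cube c κ) (hw : w ∈ cube c κ) :
    lam w ≤ (1 + η) * lam y := by
  have h1 := abs_lam_sub_le w y
  have h2 := norm_sub_le_of_mem_cube hκ hw hy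
  have h3 := hc y hy
  have h4 := le_abs_self (lam w - lam y)
  have hη0 : 0 ≤ η := by
    have : 0 ≤ η * l := le_trans (by positivity) hη
    exact nonneg_of_mul_nonneg_left this hl
  nlinarith

lemma corner_mem {c : R d} {h : ℝ} {N : ℕ} (hh : 0 < h) (k : Fin d → Fin N) :
    corner c h k ∈ cube (corner c h k) h := fun i => ⟨le_rfl, by linarith⟩

/-- coarse decomposition -/
theorem coarse (hd : 1 ≤ d) {η : ℝ} (hη : 0 < η) :
    ∃ (κ l : ℝ) (Nc : ℕ) (c : R d) (L : (Fin d → Fin Nc) → ℝ), 0 < κ ∧ 0 < l ∧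
      (∀ j, l ≤ L j) ∧
      (∀ j, ∀ w ∈ cube (corner c κ j) κ, L j ≤ lam w ∧ lam w ≤ (1 + η) ^ 2 * L j) ∧
      (1 - η) * omega d ≤ ∑ j, ((1 + η) ^ 2 * L j * κ) ^ d := by
  obtain ⟨M, hM1, hM⟩ := exists_box hd hη
  have hM0 : (1:ℝ) ≤ M := by exact_mod_cast hM1
  set l0 : ℝ := 2 / (1 + d * (M:ℝ) ^ 2) with hl0
  have hl0pos : 0 < l0 := by positivity
  obtain ⟨m, hm⟩ := exists_nat_gt (2 * d / (η * l0))
  have hmpos : (0:ℝ) < m := lt_of_le_of_lt (by positivity) hm
  have hm1 : 2 * d * (1 / (m:ℝ)) ≤ η * l0 := by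
    rw [div_lt_iff₀ (by positivity)] at hm
    rw [mul_one_div, div_le_iff₀ hmpos]
    linarith
  set κ : ℝ := 1 / (m:ℝ) with hκ
  have hκpos : 0 < κ := by positivity
  set Nc : ℕ := 2 * M * m with hNc
  have hNκ : (Nc:ℝ) * κ = 2 * M := by
    rw [hNc, hκ]; push_cast; field_simp
  set c : R d := diag d (-(M:ℝ)) with hc
  have hsub : ∀ j : Fin d → Fin Nc, cube (corner c κ j) κ ⊆ cube c (2 * M) :=
    fun j => cube_corner_subset hκpos.le hNκ.le j
  have hlow : ∀ j : Fin d → Fin Nc, ∀ w ∈ cube (corner c κ j) κ, l0 ≤ lam w := by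
    intro j w hw
    exact lam_ge_of_norm (sq_norm_le (abs_le_of_mem_box (hsub j hw)))
  have hosc : ∀ j : Fin d → Fin Nc, ∀ w ∈ cube (corner c κ j) κ, ∀ y ∈ cube (corner c κ j) κ,
      lam w ≤ (1 + η) * lam y := fun j w hw y hy => osc hκpos.le hl0pos hm1 (hlow j) hy hw
  refine ⟨κ, l0 / (1 + η), Nc, c, fun j => lam (corner c κ j) / (1 + η), hκpos, by positivity,
    ?_, ?_, ?_⟩
  · intro j
    have := hlow j _ (corner_mem hκpos j)
    exact div_le_div_of_nonneg_right this (by positivity)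
  · intro j w hw
    have h1 := hosc j w hw _ (corner_mem hκpos j)
    have h2 := hosc j _ (corner_mem hκpos j) w hw
    constructor
    · rw [div_le_iff₀ (by positivity)]
      linarith
    · have : (1 + η) ^ 2 * (lam (corner c κ j) / (1 + η)) = (1 + η) * lam (corner c κ j) := by
        field_simp
      rw [this]
      exact h1
  · have hint := integrable_lam_pow hd (d := d)
    calc (1 - η) * omega d ≤ ∫ y in cube c (2 * M), lam y ^ d := hM
      _ ≤ ∫ y in ⋃ j : Fin d → Fin Nc, cube (corner c κ j) κ, lam y ^ d := by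
          apply setIntegral_mono_set hint.integrableOn
          · exact ae_of_all _ fun y => pow_nonneg (lam_pos y).le d
          · rw [← hNκ]
            exact (cube_subset_iUnion hκpos).eventuallyLE
      _ = ∑ j : Fin d → Fin Nc, ∫ y in cube (corner c κ j) κ, lam y ^ d := by
          apply integral_iUnion_fintype (fun j => measurableSet_cube _ _)
          · intro j j' hj
            exact cube_corner_disjoint hκpos hj
          · exact fun j => hint.integrableOn
      _ ≤ ∑ j : Fin d → Fin Nc, ((1 + η) ^ 2 * (lam (corner c κ j) / (1 + η)) * κ) ^ d := by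
          refine Finset.sum_le_sum fun j _ => ?_
          have e1 : (1 + η) ^ 2 * (lam (corner c κ j) / (1 + η)) = (1 + η) * lam (corner c κ j) := by
            field_simp
          rw [e1]
          calc ∫ y in cube (corner c κ j) κ, lam y ^ d
              ≤ ∫ _y in cube (corner c κ j) κ, ((1 + η) * lam (corner c κ j)) ^ d := by
                apply setIntegral_mono_on hint.integrableOn
                · exact integrableOn_const (by rw [volume_cube]; finiteness)
                · exact measurableSet_cube _ _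
                · intro y hy
                  exact pow_le_pow_left₀ (lam_pos y).le (hosc j y hy _ (corner_mem hκpos j)) d
            _ = ((1 + η) * lam (corner c κ j) * κ) ^ d := by
                rw [setIntegral_const, volume_real_cube _ hκpos.le, smul_eq_mul, mul_pow _ κ,
                  mul_comm]


/-- one similarity-like map -/
lemma exists_map (c : R d) (m : ℝ) : ∃ φ : S d → S d, Measurable φ ∧
    ∀ z : R d, φ (Th z) = Th (aff c m z) := by
  have hmeas : Measurable (fun z : R d => Th (aff c m z)) :=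
    measurableEmbedding_Th.measurable.comp (continuous_aff c m).measurable
  obtain ⟨φ, h1, h2⟩ := measurableEmbedding_Th.exists_measurable_extend hmeas
    (fun _ => ⟨Th 0⟩)
  exact ⟨φ, h1, fun z => congrFun h2 z⟩

lemma map_dist {η ε t b m L : ℝ} (hη0 : 0 < η) (hη1 : η ≤ 1 / 4) (hηε : 8 * η ≤ ε)
    (hb : d * b ^ 2 ≤ η) (ht : 0 < t) (hm : 0 < m) (hL : 0 < L) (h2 : L * m = 2 * t) (c : R d)
    (hlam : ∀ w ∈ cube c (m * b), L ≤ lam w ∧ lam w ≤ (1 + η) ^ 2 * L)
    {z w : R d} (hz : z ∈ cube 0 b) (hw : w ∈ cube 0 b) :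
    t * dist (Th z) (Th w) ≤ dist (Th (aff c m z)) (Th (aff c m w)) ∧
      dist (Th (aff c m z)) (Th (aff c m w)) ≤ (1 + ε) * t * dist (Th z) (Th w) := by
  obtain ⟨z1, z2⟩ := hlam _ (aff_mem_cube hm hz)
  obtain ⟨w1, w2⟩ := hlam _ (aff_mem_cube hm hw)
  have z3 := lam_ge_of_cube hη0.le hb hz
  have w3 := lam_ge_of_cube hη0.le hb hw
  have z4 := lam_le_two z
  have w4 := lam_le_two w
  rw [dist_Th z w, dist_Th (aff c m z), dist_aff c hm]
  have s1 : √(lam z * lam w) ≤ 2 := by
    rw [Real.sqrt_le_left (by norm_num)]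
    nlinarith [lam_pos z, lam_pos w]
  have s2 : 2 * (1 - η) ≤ √(lam z * lam w) := by
    apply Real.le_sqrt_of_sq_le
    nlinarith
  have s3 : L ≤ √(lam (aff c m z) * lam (aff c m w)) := by
    apply Real.le_sqrt_of_sq_le
    nlinarith
  have s4 : √(lam (aff c m z) * lam (aff c m w)) ≤ (1 + η) ^ 2 * L := by
    rw [Real.sqrt_le_left (by positivity), sq ((1 + η) ^ 2 * L)]
    exact mul_le_mul z2 w2 (lam_pos _).le (by positivity)
  set D := dist z w with hD
  have hD0 : 0 ≤ D := dist_nonneg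
  constructor
  · calc t * (√(lam z * lam w) * D) ≤ t * (2 * D) := by gcongr
      _ = L * (m * D) := by rw [← mul_assoc, mul_comm t 2, ← h2]; ring
      _ ≤ √(lam (aff c m z) * lam (aff c m w)) * (m * D) := by gcongr
  · have hε0 : 0 < ε := by linarith
    calc √(lam (aff c m z) * lam (aff c m w)) * (m * D) ≤ ((1 + η) ^ 2 * L) * (m * D) := by gcongr
      _ = (1 + η) ^ 2 * (2 * t) * D := by rw [← h2]; ring
      _ ≤ ((1 + ε) * (1 - η)) * (2 * t) * D := by
          gcongr
          nlinarith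
      _ = (1 + ε) * t * ((2 * (1 - η)) * D) := by ring
      _ ≤ (1 + ε) * t * (√(lam z * lam w) * D) := by gcongr

end Helper23.Riesz.Geo

namespace Helper23.Riesz
open Geo

theorem geo {d : ℕ} (hd : 1 ≤ d) : ∃ Cg : ℝ, 0 < Cg ∧ ∀ ε : ℝ, 0 < ε → ∃ b₀ : ℝ, 0 < b₀ ∧
    ∀ b : ℝ, 0 < b → b < b₀ → ∃ B : Set (S d), MeasurableSet B ∧ 0 < (sig d).real B ∧
      (∀ r : ℝ, 0 ≤ r → (1 - ε - Cg * r / b) * (sig d).real B ≤
        (sig d).real {x | x ∈ B ∧ Metric.ball x r ⊆ B}) ∧
      ∃ t₀ : ℝ, 0 < t₀ ∧ ∀ t : ℝ, 0 < t → t < t₀ →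
        ∃ (n : ℕ) (φ : Fin n → S d → S d), (∀ k, Measurable (φ k)) ∧
          (∀ k, ∀ x ∈ B, ∀ y ∈ B, t * dist x y ≤ dist (φ k x) (φ k y) ∧
            dist (φ k x) (φ k y) ≤ (1 + ε) * t * dist x y) ∧
          (∑ k, ENNReal.ofReal (t ^ d) • (((sig d).restrict B).map (φ k)) ≤ sig d) ∧
          1 - ε ≤ n * t ^ d * (sig d).real B := by
  have hprob := isProbabilityMeasure_sig d
  have hd1 : (1:ℝ) ≤ d := by exact_mod_cast hd
  have hω := omega_pos hd
  refine ⟨2 * d, by positivity, fun ε hε => ?_⟩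
  set η : ℝ := min (1 / 4) (ε / (8 * (4 * d + 1))) with hηdef
  have hη0 : 0 < η := lt_min (by norm_num) (by positivity)
  have hη1 : η ≤ 1 / 4 := min_le_left _ _
  have hη2 : (4 * d + 1) * η ≤ ε / 8 := by
    have h := min_le_right (1 / 4) (ε / (8 * (4 * (d:ℝ) + 1)))
    rw [← hηdef, le_div_iff₀ (by positivity)] at h
    linarith
  have hηε : 8 * η ≤ ε := by nlinarith
  have hdη : d * η ≤ ε := by nlinarith
  refine ⟨min 1 (η / d), lt_min one_pos (by positivity), fun b hb0 hb => ?_⟩
  have hb1 : b ≤ 1 := (hb.trans_le (min_le_left _ _)).le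
  have hb2 : d * b ^ 2 ≤ η := by
    have h := (hb.trans_le (min_le_right _ _)).le
    rw [le_div_iff₀ (by positivity)] at h
    nlinarith
  have hBmeas : MeasurableSet (Th '' cube 0 b : Set (S d)) :=
    measurableEmbedding_Th.measurableSet_image.2 (measurableSet_cube 0 b)
  have hBlow : 1 / omega d * ((2 * (1 - η)) * b) ^ d ≤ (sig d).real (Th '' cube 0 b) :=
    le_real_sig_cube hd hb0.le (by linarith) (fun y hy => lam_ge_of_cube hη0.le hb2 hy)
  refine ⟨Th '' cube 0 b, hBmeas, ?_, inner_part hd hb0 hb1 hη0.le hb2 hη1 hdη, ?_⟩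
  · refine lt_of_lt_of_le ?_ hBlow
    have : 0 < 1 - η := by linarith
    positivity
  obtain ⟨κ, l, Nc, c, L, hκ, hl, hlL, hL, hsum⟩ := coarse hd hη0
  refine ⟨η * κ * l / (2 * b), by positivity, fun t ht0 ht => ?_⟩
  have hLpos : ∀ j, 0 < L j := fun j => hl.trans_le (hlL j)
  set m : (Fin d → Fin Nc) → ℝ := fun j => 2 * t / L j with hmdef
  have hmpos : ∀ j, 0 < m j := fun j => div_pos (by linarith) (hLpos j)
  have hLm : ∀ j, L j * m j = 2 * t := fun j => by
    simp only [hmdef]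
    rw [mul_div_cancel₀ _ (hLpos j).ne']
  have hmb : ∀ j, m j * b ≤ η * κ := by
    intro j
    rw [lt_div_iff₀ (by positivity)] at ht
    simp only [hmdef]
    rw [div_mul_eq_mul_div, div_le_iff₀ (hLpos j)]
    have : η * κ * l ≤ η * κ * L j := by
      have := hlL j
      gcongr
    linarith
  have hmbpos : ∀ j, 0 < m j * b := fun j => mul_pos (hmpos j) hb0
  set N : (Fin d → Fin Nc) → ℕ := fun j => ⌊κ / (m j * b)⌋₊ with hNdef
  have hN1 : ∀ j, (N j : ℝ) * (m j * b) ≤ κ := by
    intro j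
    have := Nat.floor_le (div_nonneg hκ.le (hmbpos j).le)
    rwa [le_div_iff₀ (hmbpos j)] at this
  have hN2 : ∀ j, (1 - η) * κ ≤ (N j : ℝ) * (m j * b) := by
    intro j
    have := Nat.lt_floor_add_one (κ / (m j * b))
    rw [div_lt_iff₀ (hmbpos j)] at this
    have h2 := hmb j
    have h3 : ((N j : ℝ) + 1) * (m j * b) = N j * (m j * b) + m j * b := by ring
    change κ < ((N j : ℝ) + 1) * (m j * b) at this
    rw [h3] at this
    linarith
  -- index set
  let I : Type := Σ j : Fin d → Fin Nc, (Fin d → Fin (N j))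
  let corn : I → R d := fun x => corner (corner c κ x.1) (m x.1 * b) x.2
  have hsub : ∀ x : I, cube (corn x) (m x.1 * b) ⊆ cube (corner c κ x.1) κ := fun x =>
    cube_corner_subset (hmbpos x.1).le (hN1 x.1) x.2
  have hdisj : ∀ x y : I, x ≠ y → Disjoint (cube (corn x) (m x.1 * b)) (cube (corn y) (m y.1 * b)) := by
    rintro ⟨j, k⟩ ⟨j', k'⟩ hne
    by_cases hj : j = j'
    · subst hj
      have hk : k ≠ k' := fun h => hne (by rw [h])
      exact cube_corner_disjoint (hmbpos j) hk
    · exact (cube_corner_disjoint hκ hj).mono (hsub ⟨j, k⟩) (hsub ⟨j', k'⟩)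
  choose φ hφm hφT using fun x : I => exists_map (corn x) (m x.1)
  let e := Fintype.equivFin I
  refine ⟨Fintype.card I, fun k => φ (e.symm k), fun k => hφm _, ?_, ?_, ?_⟩
  · rintro k _ ⟨z, hz, rfl⟩ _ ⟨w, hw, rfl⟩
    beta_reduce
    rw [hφT, hφT]
    exact map_dist hη0 hη1 hηε hb2 ht0 (hmpos _) (hLpos _) (hLm _) _
      (fun v hv => hL _ v (hsub _ hv)) hz hw
  · rw [Measure.le_iff]
    intro A hA
    rw [Measure.finsetSum_apply]
    calc ∑ k, (ENNReal.ofReal (t ^ d) • ((sig d).restrict (Th '' cube 0 b)).map (φ (e.symm k))) A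
        = ∑ x : I, (ENNReal.ofReal (t ^ d) • ((sig d).restrict (Th '' cube 0 b)).map (φ x)) A :=
          Equiv.sum_comp e.symm (fun x => (ENNReal.ofReal (t ^ d) •
            ((sig d).restrict (Th '' cube 0 b)).map (φ x)) A)
      _ ≤ ∑ x : I, ((sig d).restrict A) (Th '' cube (corn x) (m x.1 * b)) := by
          refine Finset.sum_le_sum fun x _ => ?_
          rw [Measure.smul_apply, smul_eq_mul, Measure.restrict_apply
            (measurableEmbedding_Th.measurableSet_image.2 (measurableSet_cube _ _))]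
          exact piece hd ht0 (hmpos _) (hLpos _) (hLm _) (corn x)
            (fun w hw => (hL _ w (hsub x hw)).1) (φ x) (hφm x) (hφT x) A hA
      _ ≤ ((sig d).restrict A) Set.univ := by
          apply sum_measure_le_measure_univ
          · intro x _
            exact (measurableEmbedding_Th.measurableSet_image.2
              (measurableSet_cube _ _)).nullMeasurableSet
          · intro x _ y _ hxy
            exact ((Set.disjoint_image_iff Th_injective).2 (hdisj x y hxy)).aedisjoint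
      _ = sig d A := by rw [Measure.restrict_apply_univ]
  · have hcard : (Fintype.card I : ℝ) = ∑ j, (N j : ℝ) ^ d := by
      have : Fintype.card I = ∑ j, (N j) ^ d := by
        simp only [I, Fintype.card_sigma, Fintype.card_pi, Fintype.card_fin, Finset.prod_const,
          Finset.card_univ]
      rw [this]; push_cast; rfl
    rw [hcard]
    have hη3 : 0 ≤ 1 - η := by linarith
    have key : ∀ j, (1 / omega d) * ((1 - η) ^ (4 * d) * ((1 + η) ^ 2 * L j * κ) ^ d) ≤
        (N j : ℝ) ^ d * t ^ d * (1 / omega d * ((2 * (1 - η)) * b) ^ d) := by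
      intro j
      have h1 : (N j : ℝ) ^ d * t ^ d * (1 / omega d * ((2 * (1 - η)) * b) ^ d) =
          (1 / omega d) * ((1 - η) * (L j * (N j * (m j * b)))) ^ d := by
        have : (1 - η) * (L j * (N j * (m j * b))) = (N j) * t * ((2 * (1 - η)) * b) := by
          calc _ = (1 - η) * ((L j * m j) * N j * b) := by ring
            _ = _ := by rw [hLm]; ring
        rw [this, mul_pow ((N j : ℝ) * t), mul_pow (N j : ℝ) t]; ring
      rw [h1, pow_mul, ← mul_pow]
      have hLj := hLpos j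
      apply mul_le_mul_of_nonneg_left _ (by positivity)
      apply pow_le_pow_left₀ (by positivity)
      have h2 : (1 - η) * (1 + η) ≤ 1 := by nlinarith
      have h3 : 0 ≤ (1 - η) * (1 + η) := by positivity
      have h4 : ((1 - η) * (1 + η)) ^ 2 ≤ 1 := pow_le_one₀ h3 h2
      calc (1 - η) ^ 4 * ((1 + η) ^ 2 * L j * κ)
          = ((1 - η) * (1 + η)) ^ 2 * ((1 - η) * (L j * ((1 - η) * κ))) := by ring
        _ ≤ 1 * ((1 - η) * (L j * ((1 - η) * κ))) := by gcongr
        _ = (1 - η) * (L j * ((1 - η) * κ)) := one_mul _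
        _ ≤ (1 - η) * (L j * (N j * (m j * b))) := by
            have := hN2 j
            gcongr
    calc 1 - ε ≤ (1 - η) ^ (4 * d + 1) := by
          have h := one_add_mul_le_pow (show (-2:ℝ) ≤ -η by linarith) (4 * d + 1)
          push_cast at h
          have e1 : (1:ℝ) + -η = 1 - η := by ring
          rw [e1] at h
          nlinarith
      _ = (1 - η) ^ (4 * d) * ((1 / omega d) * ((1 - η) * omega d)) := by
          rw [pow_succ]; field_simp
      _ ≤ (1 - η) ^ (4 * d) * ((1 / omega d) * ∑ j, ((1 + η) ^ 2 * L j * κ) ^ d) := by gcongr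
      _ = ∑ j, (1 / omega d) * ((1 - η) ^ (4 * d) * ((1 + η) ^ 2 * L j * κ) ^ d) := by
          rw [Finset.mul_sum, Finset.mul_sum]
          refine Finset.sum_congr rfl fun j _ => by ring
      _ ≤ ∑ j, (N j : ℝ) ^ d * t ^ d * (1 / omega d * ((2 * (1 - η)) * b) ^ d) :=
          Finset.sum_le_sum fun j _ => key j
      _ = (∑ j, (N j : ℝ) ^ d) * t ^ d * (1 / omega d * ((2 * (1 - η)) * b) ^ d) := by
          rw [Finset.sum_mul, Finset.sum_mul]
      _ ≤ (∑ j, (N j : ℝ) ^ d) * t ^ d * (sig d).real (Th '' cube 0 b) := by gcongr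

end Helper23.Riesz
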