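import Pool.Agent.Helper69.Riesz.StereoC

/-!
# Riesz energy on spheres: module GEO, part A (cubes and their images)
-/

set_option autoImplicit false
open MeasureTheory Set Filter Topology
open scoped ENNReal NNReal Pointwise

namespace Helper23.Riesz.Geo

variable {d : ℕ}

lemma lam_pos (y : R d) : 0 < lam y := by unfold lam; positivity

lemma lam_le_two (y : R d) : lam y ≤ 2 := by
  unfold lam
  rw [div_le_iff₀ (by positivity)]
  nlinarith [sq_nonneg ‖y‖]

lemma continuous_lam : Continuous (lam : R d → ℝ) := by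
  unfold lam
  exact continuous_const.div (by fun_prop) (fun y => by positivity)

lemma measurable_lam_pow (n : ℕ) : Measurable (fun y : R d => ENNReal.ofReal (lam y ^ n)) :=
  ((continuous_lam.pow n).measurable).ennreal_ofReal

lemma abs_lam_sub_le (y w : R d) : |lam y - lam w| ≤ 2 * ‖y - w‖ := by
  have h1 : lam y - lam w = 2 * ((‖w‖ - ‖y‖) * ((‖w‖ + ‖y‖) / ((1 + ‖y‖ ^ 2) * (1 + ‖w‖ ^ 2)))) := by
    unfold lam
    field_simp
    ring
  have h2 : (‖w‖ + ‖y‖) / ((1 + ‖y‖ ^ 2) * (1 + ‖w‖ ^ 2)) ≤ 1 := by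
    rw [div_le_one (by positivity)]
    nlinarith [sq_nonneg (‖y‖ - 1), sq_nonneg (‖w‖ - 1), mul_nonneg (sq_nonneg ‖y‖) (sq_nonneg ‖w‖)]
  have h3 : 0 ≤ (‖w‖ + ‖y‖) / ((1 + ‖y‖ ^ 2) * (1 + ‖w‖ ^ 2)) := by positivity
  rw [h1, abs_mul, abs_mul, abs_of_pos (by norm_num : (0:ℝ) < 2), abs_of_nonneg h3]
  have h4 : |‖w‖ - ‖y‖| ≤ ‖y - w‖ := by
    rw [abs_sub_comm]; exact abs_norm_sub_norm_le y w
  have h5 : |‖w‖ - ‖y‖| * ((‖w‖ + ‖y‖) / ((1 + ‖y‖ ^ 2) * (1 + ‖w‖ ^ 2))) ≤ ‖y - w‖ * 1 :=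
    mul_le_mul h4 h2 h3 (norm_nonneg _)
  linarith

lemma integrable_lam_pow (hd : 1 ≤ d) : Integrable (fun y : R d => lam y ^ d) := by
  have h := integrable_rpow_neg_one_add_norm_sq (E := R d) (μ := volume) (r := 2 * d)
    (by
      rw [finrank_euclideanSpace_fin]
      have : (1:ℝ) ≤ d := by exact_mod_cast hd
      linarith)
  have h2 := h.const_mul (2 ^ d)
  refine h2.congr (ae_of_all _ fun y => ?_)
  unfold lam
  have h3 : (-(2 * (d:ℝ)) / 2) = -(d:ℝ) := by ring
  simp only [h3]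
  rw [div_pow, Real.rpow_neg (by positivity), Real.rpow_natCast]
  rfl

/-- half-open cube -/
def cube (c : R d) (s : ℝ) : Set (R d) := {y | ∀ i, c i ≤ y i ∧ y i < c i + s}

lemma cube_eq (c : R d) (s : ℝ) :
    cube c s = (WithLp.ofLp : R d → (Fin d → ℝ)) ⁻¹' (Set.univ.pi fun i => Set.Ico (c i) (c i + s)) := by
  ext y
  simp [cube, Set.mem_pi]

lemma measurableSet_cube (c : R d) (s : ℝ) : MeasurableSet (cube c s) := by
  rw [cube_eq]
  exact (PiLp.volume_preserving_ofLp (Fin d)).measurable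
    (MeasurableSet.univ_pi fun i => measurableSet_Ico)

lemma volume_cube (c : R d) (s : ℝ) : volume (cube c s) = ENNReal.ofReal s ^ d := by
  rw [cube_eq, (PiLp.volume_preserving_ofLp (Fin d)).measure_preimage
    (MeasurableSet.univ_pi fun i => measurableSet_Ico).nullMeasurableSet, Real.volume_pi_Ico]
  simp

lemma volume_real_cube (c : R d) {s : ℝ} (hs : 0 ≤ s) : (volume : Measure (R d)).real (cube c s) = s ^ d := by
  rw [Measure.real, volume_cube, ENNReal.toReal_pow, ENNReal.toReal_ofReal hs]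

lemma norm_sub_le_of_mem_cube {c y w : R d} {s : ℝ} (hs : 0 ≤ s) (hy : y ∈ cube c s) (hw : w ∈ cube c s) :
    ‖y - w‖ ≤ d * s := by
  have h1 : ‖y - w‖ ^ 2 ≤ (d * s) ^ 2 := by
    rw [EuclideanSpace.norm_sq_eq]
    calc ∑ i, ‖(y - w) i‖ ^ 2 ≤ ∑ _i : Fin d, s ^ 2 := by
          refine Finset.sum_le_sum fun i _ => ?_
          have h2 := hy i
          have h3 := hw i
          rw [Real.norm_eq_abs, sq_abs]
          have : (y - w) i = y i - w i := rfl
          rw [this]
          apply sq_le_sq'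
          · linarith
          · linarith
      _ = d * s ^ 2 := by simp
      _ ≤ (d * s) ^ 2 := by
          rcases Nat.eq_zero_or_pos d with h | h
          · subst h; simp
          · have : (1:ℝ) ≤ d := by exact_mod_cast h
            nlinarith [sq_nonneg s, mul_nonneg (sub_nonneg.2 this) (sq_nonneg s)]
  exact (le_abs_self _).trans (abs_le_of_sq_le_sq h1 (by positivity))

/-- the affine map `z ↦ c + m z` -/
def aff (c : R d) (m : ℝ) (z : R d) : R d := c + m • z

lemma continuous_aff (c : R d) (m : ℝ) : Continuous (aff c m) := by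
  unfold aff; fun_prop

lemma aff_injective (c : R d) {m : ℝ} (hm : 0 < m) : Function.Injective (aff c m) := by
  intro x y h
  unfold aff at h
  have h1 : m • x = m • y := add_left_cancel h
  exact smul_right_injective _ hm.ne' h1

lemma measurableEmbedding_aff (c : R d) {m : ℝ} (hm : 0 < m) : MeasurableEmbedding (aff c m) :=
  (continuous_aff c m).measurableEmbedding (aff_injective c hm)

lemma volume_image_aff (c : R d) {m : ℝ} (hm : 0 < m) (W : Set (R d)) :
    volume (aff c m '' W) = ENNReal.ofReal (m ^ d) * volume W := by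
  have h1 : aff c m '' W = (fun x => c + x) '' (m • W) := by
    rw [← Set.image_smul, Set.image_image]
    rfl
  rw [h1, Set.image_add_left, measure_preimage_add, Measure.addHaar_smul,
    finrank_euclideanSpace_fin, abs_of_pos (by positivity)]

lemma aff_mem_cube {c : R d} {m b : ℝ} (hm : 0 < m) {z : R d} (hz : z ∈ cube 0 b) :
    aff c m z ∈ cube c (m * b) := by
  intro i
  have h := hz i
  have h0 : (0 : R d) i = 0 := rfl
  rw [h0, zero_add] at h
  have h1 : aff c m z i = c i + m * z i := rfl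
  rw [h1]
  constructor
  · have := mul_nonneg hm.le h.1
    linarith
  · have := mul_lt_mul_of_pos_left h.2 hm
    linarith

lemma dist_aff (c : R d) {m : ℝ} (hm : 0 < m) (z w : R d) :
    dist (aff c m z) (aff c m w) = m * dist z w := by
  unfold aff
  rw [dist_add_left, dist_smul₀, Real.norm_eq_abs, abs_of_pos hm]

lemma dist_Th (x y : R d) : dist (Th x) (Th y) = √(lam x * lam y) * dist x y := by
  have h := dist_Th_sq x y
  have h2 : (√(lam x * lam y) * dist x y) ^ 2 = lam x * lam y * (dist x y) ^ 2 := by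
    rw [mul_pow, Real.sq_sqrt (mul_nonneg (lam_pos x).le (lam_pos y).le)]
  have h3 : (dist (Th x) (Th y)) ^ 2 = (√(lam x * lam y) * dist x y) ^ 2 := by rw [h, h2]
  exact (sq_eq_sq₀ dist_nonneg (by positivity)).1 h3

lemma Th_injective : Function.Injective (Th : R d → S d) := measurableEmbedding_Th.injective

lemma sig_Th_le (hd : 1 ≤ d) {W : Set (R d)} (hW : MeasurableSet W) {L : ℝ}
    (hL : ∀ y ∈ W, lam y ≤ L) :
    sig d (Th '' W) ≤ ENNReal.ofReal (1 / omega d) * (ENNReal.ofReal (L ^ d) * volume W) := by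
  rw [sig_Th hd W hW]
  gcongr
  calc ∫⁻ y in W, ENNReal.ofReal (lam y ^ d) ≤ ∫⁻ _y in W, ENNReal.ofReal (L ^ d) := by
        refine setLIntegral_mono measurable_const fun y hy => ?_
        exact ENNReal.ofReal_le_ofReal (pow_le_pow_left₀ (lam_pos y).le (hL y hy) d)
    _ = ENNReal.ofReal (L ^ d) * volume W := setLIntegral_const _ _

lemma le_sig_Th (hd : 1 ≤ d) {W : Set (R d)} (hW : MeasurableSet W) {L : ℝ} (hL0 : 0 ≤ L)
    (hL : ∀ y ∈ W, L ≤ lam y) :
    ENNReal.ofReal (1 / omega d) * (ENNReal.ofReal (L ^ d) * volume W) ≤ sig d (Th '' W) := by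
  rw [sig_Th hd W hW]
  gcongr
  calc ENNReal.ofReal (L ^ d) * volume W = ∫⁻ _y in W, ENNReal.ofReal (L ^ d) :=
        (setLIntegral_const _ _).symm
    _ ≤ ∫⁻ y in W, ENNReal.ofReal (lam y ^ d) := by
        refine setLIntegral_mono (measurable_lam_pow d) fun y hy => ?_
        exact ENNReal.ofReal_le_ofReal (pow_le_pow_left₀ hL0 (hL y hy) d)

/-- one small piece -/
theorem piece (hd : 1 ≤ d) {t b m L : ℝ} (ht : 0 < t) (hm : 0 < m) (hL : 0 < L)
    (h2 : L * m = 2 * t) (c : R d) (hlam : ∀ w ∈ cube c (m * b), L ≤ lam w)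
    (φ : S d → S d) (hφ : Measurable φ) (hφT : ∀ z, φ (Th z) = Th (aff c m z))
    (A : Set (S d)) (hA : MeasurableSet A) :
    ENNReal.ofReal (t ^ d) * (((sig d).restrict (Th '' cube 0 b)).map φ) A ≤
      sig d (Th '' cube c (m * b) ∩ A) := by
  rw [Measure.map_apply hφ hA, Measure.restrict_apply (hφ hA)]
  set W : Set (R d) := cube 0 b ∩ (fun z => Th (aff c m z)) ⁻¹' A with hWdef
  have hmeas : Measurable (fun z : R d => Th (aff c m z)) :=
    measurableEmbedding_Th.measurable.comp (continuous_aff c m).measurable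
  have hW : MeasurableSet W := (measurableSet_cube 0 b).inter (hmeas hA)
  have h3 : φ ⁻¹' A ∩ Th '' cube 0 b = Th '' W := by
    ext x
    constructor
    · rintro ⟨hx, z, hz, rfl⟩
      refine ⟨z, ⟨hz, ?_⟩, rfl⟩
      simpa [hφT] using hx
    · rintro ⟨z, ⟨hz, hz2⟩, rfl⟩
      refine ⟨?_, z, hz, rfl⟩
      simpa [hφT] using hz2
  have h4 : Th '' (aff c m '' W) ⊆ Th '' cube c (m * b) ∩ A := by
    rintro x ⟨y, ⟨z, ⟨hz, hz2⟩, rfl⟩, rfl⟩
    exact ⟨⟨_, aff_mem_cube hm hz, rfl⟩, hz2⟩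
  rw [h3]
  calc ENNReal.ofReal (t ^ d) * sig d (Th '' W)
      ≤ ENNReal.ofReal (t ^ d) * (ENNReal.ofReal (1 / omega d) *
          (ENNReal.ofReal (2 ^ d) * volume W)) := by
        gcongr
        exact sig_Th_le hd hW (fun y _ => lam_le_two y)
    _ = ENNReal.ofReal (1 / omega d) * (ENNReal.ofReal (L ^ d) *
          (ENNReal.ofReal (m ^ d) * volume W)) := by
        have h5 : ENNReal.ofReal (t ^ d) * ENNReal.ofReal (2 ^ d) =
            ENNReal.ofReal (L ^ d) * ENNReal.ofReal (m ^ d) := by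
          rw [← ENNReal.ofReal_mul (by positivity), ← ENNReal.ofReal_mul (by positivity),
            ← mul_pow, ← mul_pow, h2, mul_comm t 2]
        calc _ = ENNReal.ofReal (1 / omega d) * (ENNReal.ofReal (t ^ d) * ENNReal.ofReal (2 ^ d)) *
              volume W := by ring
          _ = ENNReal.ofReal (1 / omega d) * (ENNReal.ofReal (L ^ d) * ENNReal.ofReal (m ^ d)) *
              volume W := by rw [h5]
          _ = _ := by ring
    _ = ENNReal.ofReal (1 / omega d) * (ENNReal.ofReal (L ^ d) * volume (aff c m '' W)) := by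
        rw [volume_image_aff c hm]
    _ ≤ sig d (Th '' (aff c m '' W)) := by
        refine le_sig_Th hd ((measurableEmbedding_aff c hm).measurableSet_image.2 hW) hL.le ?_
        rintro _ ⟨z, ⟨hz, -⟩, rfl⟩
        exact hlam _ (aff_mem_cube hm hz)
    _ ≤ sig d (Th '' cube c (m * b) ∩ A) := measure_mono h4

/-! ### grids of cubes -/

/-- corner of the `k`-th subcube -/
def corner (c : R d) (h : ℝ) {N : ℕ} (k : Fin d → Fin N) : R d :=
  WithLp.toLp 2 (fun i => c i + h * ((k i : ℕ) : ℝ))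

lemma corner_apply (c : R d) (h : ℝ) {N : ℕ} (k : Fin d → Fin N) (i : Fin d) :
    corner c h k i = c i + h * ((k i : ℕ) : ℝ) := rfl

lemma cube_corner_subset {c : R d} {h s : ℝ} {N : ℕ} (hh : 0 ≤ h) (hN : N * h ≤ s)
    (k : Fin d → Fin N) : cube (corner c h k) h ⊆ cube c s := by
  intro y hy i
  have h1 := hy i
  rw [corner_apply] at h1
  have h2 : ((k i : ℕ) : ℝ) + 1 ≤ N := by exact_mod_cast (k i).2
  have h3 : 0 ≤ h * ((k i : ℕ) : ℝ) := by positivity
  have h4 : h * (((k i : ℕ) : ℝ) + 1) ≤ h * N := mul_le_mul_of_nonneg_left h2 hh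
  constructor
  · linarith [h1.1]
  · nlinarith [h1.2]

lemma cube_corner_disjoint {c : R d} {h : ℝ} {N : ℕ} (hh : 0 < h) {k k' : Fin d → Fin N}
    (hk : k ≠ k') : Disjoint (cube (corner c h k) h) (cube (corner c h k') h) := by
  rw [Set.disjoint_left]
  intro y hy hy'
  apply hk
  funext i
  have h1 := hy i
  have h2 := hy' i
  rw [corner_apply] at h1 h2
  have h3 : h * ((k i : ℕ) : ℝ) < h * (((k' i : ℕ) : ℝ) + 1) := by linarith [h1.1, h2.2]
  have h4 : h * ((k' i : ℕ) : ℝ) < h * (((k i : ℕ) : ℝ) + 1) := by linarith [h1.2, h2.1]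
  have h5 : ((k i : ℕ) : ℝ) < ((k' i : ℕ) : ℝ) + 1 := lt_of_mul_lt_mul_left h3 hh.le
  have h6 : ((k' i : ℕ) : ℝ) < ((k i : ℕ) : ℝ) + 1 := lt_of_mul_lt_mul_left h4 hh.le
  have h7 : (k i : ℕ) < (k' i : ℕ) + 1 := by exact_mod_cast h5
  have h8 : (k' i : ℕ) < (k i : ℕ) + 1 := by exact_mod_cast h6
  apply Fin.ext
  omega

lemma cube_subset_iUnion {c : R d} {h : ℝ} {N : ℕ} (hh : 0 < h) :
    cube c (N * h) ⊆ ⋃ k : Fin d → Fin N, cube (corner c h k) h := by
  intro y hy
  have h1 : ∀ i, 0 ≤ (y i - c i) / h := fun i => div_nonneg (by linarith [(hy i).1]) hh.le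
  have h2 : ∀ i, ⌊(y i - c i) / h⌋₊ < N := by
    intro i
    rw [Nat.floor_lt (h1 i), div_lt_iff₀ hh]
    linarith [(hy i).2]
  rw [Set.mem_iUnion]
  refine ⟨fun i => ⟨⌊(y i - c i) / h⌋₊, h2 i⟩, fun i => ?_⟩
  rw [corner_apply]
  have h3 := Nat.floor_le (h1 i)
  have h4 := Nat.lt_floor_add_one ((y i - c i) / h)
  rw [le_div_iff₀ hh] at h3
  rw [div_lt_iff₀ hh] at h4
  constructor
  · simp only
    linarith
  · simp only
    linarith

end Helper23.Riesz.Geo
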